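import Mathlib
import Pool.Agent.Q42.GH.Main
import Pool.Agent.H39R3.Attach

/-!
# The smallest graceful tree containing a given tree: `γ(T) = |E(T)|` if some vertex of `T` is adjacent
to all but a small proportion of the vertices

Let `T` be a finite tree with `m` edges, `v` a vertex of `T` and `t = m - deg v` the number of the other
vertices which are not adjacent to `v`.  If `2^28 * 10^9 * t ≤ m`, then `T` is graceful, so `T` itself is
the smallest graceful tree containing `T`.  There is no condition on the shape of the tree outside the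
star of `v`.  Consequently, for every tree `T` and every vertex `v` of `T`, the tree obtained from `T` by
attaching `l` pendant edges at `v` is graceful as soon as `2^28 * 10^9 * t ≤ m + l`, and
`γ(T) ≤ max(m, 2^28 * 10^9 * t)`.
-/

set_option autoImplicit false

namespace Pool.Agent.Results.MP_128071_co.DominatingVertex

open Pool.Agent.H39R3

/-- A graph with `m` edges is graceful if there is an injective map `f` of the vertices to
`{0, 1, …, m}` such that the edge labels `|f u - f v|` are exactly `1, …, m`. -/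
def Graceful {V : Type} (T : SimpleGraph V) : Prop :=
  ∃ f : V → ℕ, Function.Injective f ∧ (∀ v, f v ≤ T.edgeSet.ncard) ∧
    {d : ℕ | ∃ u v : V, T.Adj u v ∧ d = Int.natAbs ((f u : ℤ) - (f v : ℤ))} =
      Set.Icc 1 T.edgeSet.ncard

/-- The numbers of edges of the finite graceful trees which have a subgraph isomorphic to `T`. -/
def gracefulSizes {V : Type} (T : SimpleGraph V) : Set ℕ :=
  {k | ∃ (W : Type) (_ : Fintype W) (T' : SimpleGraph W),
    T'.IsTree ∧ Graceful T' ∧ T.IsContained T' ∧ T'.edgeSet.ncard = k}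

/-- `γ(T)`: the least number of edges of a graceful tree which has a subgraph isomorphic to `T`. -/
noncomputable def gamma {V : Type} (T : SimpleGraph V) : ℕ := sInf (gracefulSizes T)

theorem le_of_mem {V : Type} {T : SimpleGraph V} {k : ℕ}
    (hk : k ∈ gracefulSizes T) : T.edgeSet.ncard ≤ k := by
  classical
  obtain ⟨W, _, T', _, _, ⟨φ⟩, rfl⟩ := hk
  have hinj : Function.Injective φ := φ.injective
  have h1 : Sym2.map φ '' T.edgeSet ⊆ T'.edgeSet := by
    rintro _ ⟨e, he, rfl⟩
    induction e using Sym2.ind with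
    | _ x y =>
      rw [Sym2.map_mk, SimpleGraph.mem_edgeSet]
      exact φ.toHom.map_adj ((SimpleGraph.mem_edgeSet T).1 he)
  calc T.edgeSet.ncard = (Sym2.map φ '' T.edgeSet).ncard :=
        (Set.ncard_image_of_injective _ (Sym2.map.injective hinj)).symm
    _ ≤ T'.edgeSet.ncard := Set.ncard_le_ncard h1 (Set.toFinite _)

/-- a graceful tree is the smallest graceful tree containing itself -/
theorem gamma_of_graceful {V : Type} [Fintype V] {T : SimpleGraph V} (hT : T.IsTree)
    (hg : Graceful T) : T.edgeSet.ncard ∈ gracefulSizes T ∧ gamma T = T.edgeSet.ncard := by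
  have hm : T.edgeSet.ncard ∈ gracefulSizes T :=
    ⟨V, inferInstance, T, hT, hg, SimpleGraph.IsContained.refl T, rfl⟩
  exact ⟨hm, le_antisymm (Nat.sInf_le hm) (le_of_mem (Nat.sInf_mem ⟨_, hm⟩))⟩

/-- the vertices not adjacent to the root after attaching pendant edges at the root -/
theorem ncard_attach {V : Type} [Fintype V] (T : SimpleGraph V) (v : V) (l : ℕ) :
    {x | x ≠ Sum.inl v ∧ ¬ (attach T v l 0).Adj (Sum.inl v) x}.ncard =
      {x : V | x ≠ v ∧ ¬ T.Adj v x}.ncard := by
  have h : {x | x ≠ Sum.inl v ∧ ¬ (attach T v l 0).Adj (Sum.inl v) x} =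
      Sum.inl '' {x : V | x ≠ v ∧ ¬ T.Adj v x} := by
    ext x
    rcases x with x | x | x | x
    · simp only [Set.mem_ofPred_eq, attach_ll, Set.mem_image, Sum.inl.injEq, exists_eq_right, ne_eq]
    · simp [attach]
    · exact x.elim0
    · exact x.elim0
  rw [h, Set.ncard_image_of_injective _ Sum.inl_injective]

/-- Let `T` be a finite tree, `v` a vertex of `T` and `t` the number of the vertices different from `v`
and not adjacent to `v`.
1. If `2^28 * 10^9 * t ≤ |E(T)|`, then `T` is graceful and `γ(T) = |E(T)|`.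
2. For every `l` with `2^28 * 10^9 * t ≤ |E(T)| + l` the tree obtained from `T` by attaching `l` pendant
edges at `v` is graceful, it is a smallest graceful tree containing itself, and `γ(T) ≤ |E(T)| + l`.
3. `γ(T)` is attained, and `|E(T)| ≤ γ(T) ≤ max(|E(T)|, 2^28 * 10^9 * t)`. -/
theorem result (V : Type) [Fintype V] (T : SimpleGraph V) (hT : T.IsTree) (v : V) (t : ℕ)
    (ht : {x : V | x ≠ v ∧ ¬ T.Adj v x}.ncard = t) :
    (2 ^ 28 * 10 ^ 9 * t ≤ T.edgeSet.ncard → Graceful T ∧ gamma T = T.edgeSet.ncard) ∧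
    (∀ l : ℕ, 2 ^ 28 * 10 ^ 9 * t ≤ T.edgeSet.ncard + l →
      (attach T v l 0).IsTree ∧ (attach T v l 0).edgeSet.ncard = T.edgeSet.ncard + l ∧
      Graceful (attach T v l 0) ∧ gamma (attach T v l 0) = T.edgeSet.ncard + l ∧
      gamma T ≤ T.edgeSet.ncard + l) ∧
    gamma T ∈ gracefulSizes T ∧ T.edgeSet.ncard ≤ gamma T ∧
    gamma T ≤ max T.edgeSet.ncard (2 ^ 28 * 10 ^ 9 * t) := by
  have hat : ∀ l : ℕ, 2 ^ 28 * 10 ^ 9 * t ≤ T.edgeSet.ncard + l →
      (attach T v l 0).IsTree ∧ (attach T v l 0).edgeSet.ncard = T.edgeSet.ncard + l ∧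
      Graceful (attach T v l 0) ∧ T.edgeSet.ncard + l ∈ gracefulSizes T := by
    intro l hl
    obtain ⟨h6, h7⟩ := attach_isTree_card (v := v) (a := l) (b := 0) hT
    have h8 : (attach T v l 0).edgeSet.ncard = T.edgeSet.ncard + l := by omega
    have h9 : Graceful (attach T v l 0) :=
      Pool.Agent.Q42.GH.dominating _ (attach T v l 0) h6 (Sum.inl v)
        (by rw [ncard_attach, ht, h8]; exact hl)
    refine ⟨h6, h8, h9, _, inferInstance, attach T v l 0, h6, h9, ?_, h8⟩
    exact ⟨SimpleGraph.Hom.toCopy ⟨Sum.inl, fun {a b} h => h⟩ Sum.inl_injective⟩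
  obtain ⟨l, hl1, hl2⟩ : ∃ l, 2 ^ 28 * 10 ^ 9 * t ≤ T.edgeSet.ncard + l ∧
      T.edgeSet.ncard + l = max T.edgeSet.ncard (2 ^ 28 * 10 ^ 9 * t) :=
    ⟨max T.edgeSet.ncard (2 ^ 28 * 10 ^ 9 * t) - T.edgeSet.ncard, by omega, by omega⟩
  have hmem : gamma T ∈ gracefulSizes T := Nat.sInf_mem ⟨_, (hat l hl1).2.2.2⟩
  refine ⟨fun h => ?_, fun l hl => ?_, hmem, le_of_mem hmem, ?_⟩
  · have hg : Graceful T := Pool.Agent.Q42.GH.dominating V T hT v (by rw [ht]; exact h)
    exact ⟨hg, (gamma_of_graceful hT hg).2⟩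
  · obtain ⟨h1, h2, h3, h4⟩ := hat l hl
    exact ⟨h1, h2, h3, by rw [(gamma_of_graceful h1 h3).2, h2], Nat.sInf_le h4⟩
  · rw [← hl2]
    exact Nat.sInf_le (hat l hl1).2.2.2

end Pool.Agent.Results.MP_128071_co.DominatingVertex
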