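import Mathlib
import Pool.Agent.Q252.FN.Main

/-!
# The smallest graceful tree containing a given tree: `γ(T) = |E(T)|` if `T` has few vertices which are
not leaves, or two vertices at any distance with many leaf neighbours

Let `T` be a finite tree with `m` edges and `k` vertices which are not leaves.  If `m ≥ C k ^ 2` for the
explicit constant `C = 2 ^ 62 * 10 ^ 18`, then `T` is graceful.  The same is true if two different
vertices of `T`, at any distance, are adjacent to at least `2 ^ 33 * 10 ^ 9 * k` leaves each.  There is
no condition on the shape of `T` and on the numbers of leaves at the other vertices.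
-/

set_option autoImplicit false

namespace Pool.Agent.Results.MP_128071_co.FewNonLeaves

/-- A graph with `m` edges is graceful if there is an injective map `f` of the vertices to
`{0, 1, …, m}` such that the edge labels `|f u - f v|` are exactly `1, …, m`. -/
def Graceful {V : Type} (T : SimpleGraph V) : Prop :=
  ∃ f : V → ℕ, Function.Injective f ∧ (∀ v, f v ≤ T.edgeSet.ncard) ∧
    {d : ℕ | ∃ u v : V, T.Adj u v ∧ d = Int.natAbs ((f u : ℤ) - (f v : ℤ))} =
      Set.Icc 1 T.edgeSet.ncard

/-- The numbers of edges of the finite graceful trees which have a subgraph isomorphic to `T`. -/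
def gracefulSizes {V : Type} (T : SimpleGraph V) : Set ℕ :=
  {k | ∃ (W : Type) (_ : Fintype W) (T' : SimpleGraph W),
    T'.IsTree ∧ Graceful T' ∧ T.IsContained T' ∧ T'.edgeSet.ncard = k}

/-- `γ(T)`: the least number of edges of a graceful tree which has a subgraph isomorphic to `T`. -/
noncomputable def gamma {V : Type} (T : SimpleGraph V) : ℕ := sInf (gracefulSizes T)

/-- The number of neighbours of a vertex. -/
noncomputable def deg {V : Type} (T : SimpleGraph V) (x : V) : ℕ := (T.neighborSet x).ncard

/-- The number of the leaves (vertices with exactly one neighbour) adjacent to a vertex. -/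
noncomputable def leafNbrs {V : Type} (T : SimpleGraph V) (w : V) : ℕ :=
  {x : V | T.Adj w x ∧ deg T x = 1}.ncard

/-- The number of the vertices with at least two neighbours. -/
noncomputable def nonLeaves {V : Type} (T : SimpleGraph V) : ℕ := {x : V | 2 ≤ deg T x}.ncard

theorem le_of_mem {V : Type} {T : SimpleGraph V} {k : ℕ}
    (hk : k ∈ gracefulSizes T) : T.edgeSet.ncard ≤ k := by
  classical
  obtain ⟨W, _, T', _, _, ⟨φ⟩, rfl⟩ := hk
  have hinj : Function.Injective φ := φ.injective
  have h1 : Sym2.map φ '' T.edgeSet ⊆ T'.edgeSet := by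
    rintro _ ⟨e, he, rfl⟩
    induction e using Sym2.ind with
    | _ x y =>
      rw [Sym2.map_mk, SimpleGraph.mem_edgeSet]
      exact φ.toHom.map_adj ((SimpleGraph.mem_edgeSet T).1 he)
  calc T.edgeSet.ncard = (Sym2.map φ '' T.edgeSet).ncard :=
        (Set.ncard_image_of_injective _ (Sym2.map.injective hinj)).symm
    _ ≤ T'.edgeSet.ncard := Set.ncard_le_ncard h1 (Set.toFinite _)

/-- a graceful tree is the smallest graceful tree containing itself -/
theorem gamma_of_graceful {V : Type} [Fintype V] {T : SimpleGraph V} (hT : T.IsTree)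
    (hg : Graceful T) : gamma T = T.edgeSet.ncard := by
  have hm : T.edgeSet.ncard ∈ gracefulSizes T :=
    ⟨V, inferInstance, T, hT, hg, SimpleGraph.IsContained.refl T, rfl⟩
  exact le_antisymm (Nat.sInf_le hm) (le_of_mem (Nat.sInf_mem ⟨_, hm⟩))

/-- Let `T` be a finite tree with `m` edges and `k` vertices with at least two neighbours.
(1) If `2 ^ 62 * 10 ^ 18 * k ^ 2 ≤ m`, then `T` is graceful and `γ(T) = |E(T)|`.
(2) The same is true if there are two different vertices `h`, `g` of `T` (adjacent or not) which are
adjacent to at least `2 ^ 33 * 10 ^ 9 * k` leaves each. -/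
theorem result (V : Type) [Fintype V] (T : SimpleGraph V) (hT : T.IsTree) :
    (2 ^ 62 * 10 ^ 18 * nonLeaves T ^ 2 ≤ T.edgeSet.ncard →
      Graceful T ∧ gamma T = T.edgeSet.ncard) ∧
    ∀ h g : V, h ≠ g → 2 ^ 33 * 10 ^ 9 * nonLeaves T ≤ leafNbrs T h →
      2 ^ 33 * 10 ^ 9 * nonLeaves T ≤ leafNbrs T g →
      Graceful T ∧ gamma T = T.edgeSet.ncard := by
  constructor
  · intro hm
    have h1 : Graceful T := Pool.Agent.Q252.FN.few_holds hT rfl hm
    exact ⟨h1, gamma_of_graceful hT h1⟩
  · intro h g hne hh hg
    have h1 : Graceful T := Pool.Agent.Q252.FN.hubs_holds hT hne rfl hh hg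
    exact ⟨h1, gamma_of_graceful hT h1⟩

end Pool.Agent.Results.MP_128071_co.FewNonLeaves
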