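import Mathlib
import Pool.Agent.Q132.GT.Main

/-!
# The smallest graceful tree containing a given tree: `γ(T) = |E(T)|` if every other vertex which is not
a leaf has as many leaf neighbours as vertices which it has to serve, and one vertex has many leaves

First part: let `T` be a finite tree with `k` vertices which are not leaves, all within distance `D` of
a vertex `h`.  If at least `(deg v - 1) / 2` of the neighbours of every non-leaf `v ≠ h` are leaves, i.e.
`v` has at least as many children that are leaves as children that are not leaves, and `h` is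
adjacent to at least `16 (D + 1) k` leaves, then `T` is graceful, so `T` itself is the smallest
graceful tree containing `T`.

Second part (`Served`): the same with a more general condition at the vertices `v ≠ h`.  The non-leaves
are divided into clusters, each with a server; a vertex that is not a server is served by the server of
its cluster (or not at all if its parent is `h`), a server is served by its parent.  Every vertex needs
as many leaves as it serves vertices.
-/

set_option autoImplicit false

namespace Pool.Agent.Results.MP_128071_co.ServedTrees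

/-- A graph with `m` edges is graceful if there is an injective map `f` of the vertices to
`{0, 1, …, m}` such that the edge labels `|f u - f v|` are exactly `1, …, m`. -/
def Graceful {V : Type} (T : SimpleGraph V) : Prop :=
  ∃ f : V → ℕ, Function.Injective f ∧ (∀ v, f v ≤ T.edgeSet.ncard) ∧
    {d : ℕ | ∃ u v : V, T.Adj u v ∧ d = Int.natAbs ((f u : ℤ) - (f v : ℤ))} =
      Set.Icc 1 T.edgeSet.ncard

/-- The numbers of edges of the finite graceful trees which have a subgraph isomorphic to `T`. -/
def gracefulSizes {V : Type} (T : SimpleGraph V) : Set ℕ :=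
  {k | ∃ (W : Type) (_ : Fintype W) (T' : SimpleGraph W),
    T'.IsTree ∧ Graceful T' ∧ T.IsContained T' ∧ T'.edgeSet.ncard = k}

/-- `γ(T)`: the least number of edges of a graceful tree which has a subgraph isomorphic to `T`. -/
noncomputable def gamma {V : Type} (T : SimpleGraph V) : ℕ := sInf (gracefulSizes T)

/-- The number of neighbours of a vertex. -/
noncomputable def deg {V : Type} (T : SimpleGraph V) (x : V) : ℕ := (T.neighborSet x).ncard

/-- The number of the leaves (vertices with exactly one neighbour) adjacent to a vertex. -/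
noncomputable def leafNbrs {V : Type} (T : SimpleGraph V) (w : V) : ℕ :=
  {x : V | T.Adj w x ∧ deg T x = 1}.ncard

/-- The number of the free children of `w`: the vertices `x ≠ h` outside `N` and `M` whose parent
is `w`.  (In `Served` all these vertices are leaves.) -/
noncomputable def free {V : Type} (h : V) (par : V → V) (N M : Set V) (w : V) : ℕ :=
  {x : V | x ≠ h ∧ x ∉ M ∧ x ∉ N ∧ par x = w}.ncard

/-- A division of the vertices `≠ h` of a tree `T` into clusters with servers (set `N`), branches
without any condition (set `M`), and leaves (all other vertices). `s x` is the server of the cluster of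
`x ∈ N`, and `ρ` is the rank of the cluster, at most `δ`. -/
structure Served {V : Type} (T : SimpleGraph V) (h : V) (par : V → V) (N M : Set V) (s : V → V)
    (ρ : V → ℕ) (δ κ : ℕ) : Prop where
  /-- `par x` is the parent of `x`: the neighbour of `x` on the path from `x` to `h` -/
  par_adj : ∀ x, x ≠ h → T.Adj (par x) x ∧ T.dist h x = T.dist h (par x) + 1
  h_notMem_N : h ∉ N
  h_notMem_M : h ∉ M
  disj : Disjoint N M
  /-- the parent of a vertex of `N` is `h` or in `N` -/
  par_N : ∀ x ∈ N, par x = h ∨ par x ∈ N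
  /-- the parent of a vertex of `M` is `h`, or in `M`, or a server -/
  par_M : ∀ x ∈ M, par x = h ∨ par x ∈ M ∨ (par x ∈ N ∧ s (par x) = par x)
  /-- the parent of any other vertex is `h` or in `N` -/
  par_rest : ∀ x, x ≠ h → x ∉ M → x ∉ N → par x = h ∨ par x ∈ N
  /-- `s` is idempotent on `N` and `ρ` is constant on the clusters and at most `δ` -/
  server : ∀ x ∈ N, s x ∈ N ∧ s (s x) = s x ∧ ρ (s x) = ρ x ∧ ρ x ≤ δ
  /-- the parent of a vertex which is no server is `h` or in the same cluster -/
  cluster : ∀ x ∈ N, s x ≠ x → par x ≠ h → s (par x) = s x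
  /-- the parent of a server is `h` or in a cluster of smaller rank -/
  rank : ∀ x ∈ N, s x = x → par x ≠ h → ρ (par x) < ρ x
  /-- the bound `κ` for the product of the size of a cluster (with the children in `M` of its server)
  and the size of the others -/
  kappa : ∀ v ∈ N, s v = v →
    ({x | x ∈ N ∧ s x = v}.ncard + {x | x ∈ M ∧ par x = v}.ncard) *
    ({x | x ∈ N ∧ s x ≠ v}.ncard + {x | x ∈ M ∧ par x ∈ N ∧ par x ≠ v}.ncard) ≤ κ
  /-- every vertex of `N` has as many leaves as it serves vertices: its children which are servers,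
  the other vertices of its cluster (if it is a server) whose parent is not `h`, and its children in
  `M` -/
  leaves : ∀ v ∈ N, {x | x ∈ N ∧ s x = x ∧ par x = v}.ncard +
    {x | x ∈ N ∧ s x = v ∧ x ≠ v ∧ par x ≠ h}.ncard + {x | x ∈ M ∧ par x = v}.ncard ≤
      free h par N M v

theorem le_of_mem {V : Type} {T : SimpleGraph V} {k : ℕ}
    (hk : k ∈ gracefulSizes T) : T.edgeSet.ncard ≤ k := by
  classical
  obtain ⟨W, _, T', _, _, ⟨φ⟩, rfl⟩ := hk
  have hinj : Function.Injective φ := φ.injective
  have h1 : Sym2.map φ '' T.edgeSet ⊆ T'.edgeSet := by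
    rintro _ ⟨e, he, rfl⟩
    induction e using Sym2.ind with
    | _ x y =>
      rw [Sym2.map_mk, SimpleGraph.mem_edgeSet]
      exact φ.toHom.map_adj ((SimpleGraph.mem_edgeSet T).1 he)
  calc T.edgeSet.ncard = (Sym2.map φ '' T.edgeSet).ncard :=
        (Set.ncard_image_of_injective _ (Sym2.map.injective hinj)).symm
    _ ≤ T'.edgeSet.ncard := Set.ncard_le_ncard h1 (Set.toFinite _)

/-- a graceful tree is the smallest graceful tree containing itself -/
theorem gamma_of_graceful {V : Type} [Fintype V] {T : SimpleGraph V} (hT : T.IsTree)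
    (hg : Graceful T) : gamma T = T.edgeSet.ncard := by
  have hm : T.edgeSet.ncard ∈ gracefulSizes T :=
    ⟨V, inferInstance, T, hT, hg, SimpleGraph.IsContained.refl T, rfl⟩
  exact le_antisymm (Nat.sInf_le hm) (le_of_mem (Nat.sInf_mem ⟨_, hm⟩))

/-- the general form -/
theorem general (V : Type) [Fintype V] (T : SimpleGraph V) (hT : T.IsTree) (h : V) (par : V → V)
    (N M : Set V) (s : V → V) (ρ : V → ℕ) (δ κ : ℕ) (H : Served T h par N M s ρ δ κ)
    (hhub : N.Nonempty ∨ M.Nonempty → 8 * (δ + 2) * (2 ^ 28 * 10 ^ 9 *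
      (M.ncard + {x | x ∈ N ∧ s x ≠ x}.ncard) + (N.ncard + M.ncard + κ + 1)) + 2 ≤
        free h par N M h) : Graceful T := by
  classical
  obtain ⟨N', hN'⟩ : ∃ N' : Finset V, (N' : Set V) = N := ⟨_, N.toFinite.coe_toFinset⟩
  obtain ⟨M', hM'⟩ : ∃ M' : Finset V, (M' : Set V) = M := ⟨_, M.toFinite.coe_toFinset⟩
  subst hN' hM'
  have hc : ∀ (A : Finset V) (p : V → Prop) [DecidablePred p],
      {x | x ∈ (A : Set V) ∧ p x}.ncard = (A.filter p).card := by
    intro A p _
    rw [← Set.ncard_coe_finset]
    congr 1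
    ext x
    simp
  have hf : ∀ w, free h par N' M' w =
      (Finset.univ.filter (fun x => x ≠ h ∧ x ∉ M' ∧ x ∉ N' ∧ par x = w)).card := by
    intro w
    rw [← Set.ncard_coe_finset, free]
    congr 1
    ext x
    simp
  refine Pool.Agent.Q132.GT.served V T hT h par H.par_adj N' M' s ρ δ κ _ _
    (fun h1 => H.h_notMem_N h1) (fun h1 => H.h_notMem_M h1)
    (Finset.disjoint_coe.1 H.disj) (fun x hx => H.par_N x hx) (fun x hx => H.par_M x hx)
    (fun x hx h1 h2 => H.par_rest x hx h1 h2) (fun x hx => H.server x hx)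
    (fun x hx => H.cluster x hx) (fun x hx => H.rank x hx) ?_ rfl rfl ?_ ?_
  · intro v hv hsv
    have h1 := H.kappa v hv hsv
    rwa [hc, hc, hc, hc] at h1
  · intro v hv
    have h1 := H.leaves v hv
    rwa [hc, hc, hc, hf] at h1
  · intro hne
    have h1 := hhub (by simpa using hne)
    rw [hc, hf, Set.ncard_coe_finset, Set.ncard_coe_finset] at h1
    refine le_trans (le_of_eq ?_) h1
    ring

/-- the simple form -/
theorem simple (V : Type) [Fintype V] (T : SimpleGraph V) (hT : T.IsTree) (h : V) (k D : ℕ)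
    (hk : {x : V | 2 ≤ deg T x}.ncard = k) (hD : ∀ x, 2 ≤ deg T x → T.dist h x ≤ D)
    (hdeg : ∀ v, v ≠ h → 2 ≤ deg T v → deg T v ≤ 2 * leafNbrs T v + 1)
    (hh : 16 * (D + 1) * k ≤ leafNbrs T h) : Graceful T := by
  classical
  obtain ⟨par, hp1, hp2⟩ := Pool.Agent.H115R2.exists_parent T hT h
  obtain ⟨N, hN⟩ : ∃ N : Set V, N = {x | x ≠ h ∧ 2 ≤ deg T x} := ⟨_, rfl⟩
  have hNm : ∀ x, x ∈ N ↔ x ≠ h ∧ 2 ≤ deg T x := fun x => by rw [hN]; rfl
  have hsymm : ∀ x y, T.Adj x y → par x = y ∧ x ≠ h ∨ par y = x ∧ y ≠ h := by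
    intro x y hxy
    rcases hT.dist_eq_dist_add_one_of_adj h hxy with h2 | h2
    · left
      refine ⟨hp2 x y hxy h2, ?_⟩
      rintro rfl
      simp at h2
    · right
      refine ⟨hp2 y x hxy.symm h2, ?_⟩
      rintro rfl
      simp at h2
  have hpar : ∀ x, x ≠ h → par x ≠ h → par x ∈ N := by
    intro x hx hx'
    rw [hNm]
    refine ⟨hx', ?_⟩
    obtain ⟨h1, h2⟩ := hp1 x hx
    obtain ⟨h3, h4⟩ := hp1 _ hx'
    have h5 : par (par x) ≠ x := by
      intro e
      rw [e] at h4
      omega
    have h6 : ({par (par x), x} : Set V) ⊆ T.neighborSet (par x) := by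
      intro y hy
      rcases hy with rfl | rfl
      · exact h3.symm
      · exact h1
    calc 2 = ({par (par x), x} : Set V).ncard := (Set.ncard_pair h5).symm
      _ ≤ _ := Set.ncard_le_ncard h6 (Set.toFinite _)
  have hleafN : ∀ x, x ∉ N → x ≠ h → ¬ 2 ≤ deg T x := fun x hx hxh h1 => hx ((hNm x).2 ⟨hxh, h1⟩)
  have hk' : ∀ v ∈ N, N.ncard + 1 = k ∧ 2 ≤ deg T h ∧ 1 ≤ D := by
    intro v hv
    obtain ⟨h1, h2⟩ := (hNm v).1 hv
    have h3 : 1 ≤ k := by
      rw [← hk]
      exact (Set.ncard_pos (Set.toFinite _)).2 ⟨v, h2⟩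
    have h4 : 2 ≤ deg T h := by
      have h5 : leafNbrs T h ≤ deg T h :=
        Set.ncard_le_ncard (fun x hx => hx.1) (Set.toFinite _)
      have h6 : 16 * (0 + 1) * 1 ≤ 16 * (D + 1) * k :=
        Nat.mul_le_mul (Nat.mul_le_mul le_rfl (by omega)) h3
      omega
    refine ⟨?_, h4, ?_⟩
    · have h7 : {x : V | 2 ≤ deg T x} = insert h N := by
        ext x
        rw [Set.mem_ofPred_eq, Set.mem_insert_iff, hNm]
        constructor
        · intro h8
          by_cases h9 : x = h
          · exact Or.inl h9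
          · exact Or.inr ⟨h9, h8⟩
        · rintro (rfl | h8)
          · exact h4
          · exact h8.2
      rw [← hk, h7, Set.ncard_insert_of_notMem (fun h8 => ((hNm h).1 h8).1 rfl) (Set.toFinite _)]
    · have h8 := hD v h2
      obtain ⟨h9, h10⟩ := hp1 v h1
      omega
  have hfree : ∀ w, (w = h ∨ w ∈ N) → leafNbrs T w ≤ free h par N ∅ w := by
    intro w hw
    apply Set.ncard_le_ncard _ (Set.toFinite _)
    rintro y ⟨h1, h2⟩
    have h3 : y ≠ h := by
      rintro rfl
      rcases hw with rfl | hw
      · exact T.loopless.irrefl _ h1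
      · have := (hk' w hw).2.1
        omega
    refine ⟨h3, fun h4 => h4, fun h4 => ?_, ?_⟩
    · have := ((hNm y).1 h4).2
      omega
    · rcases hsymm w y h1 with ⟨h4, h5⟩ | ⟨h4, h5⟩
      · exfalso
        have h6 := hpar w h5 (by rw [h4]; exact h3)
        rw [h4, hNm] at h6
        omega
      · exact h4
  refine general V T hT h par N ∅ id (fun x => T.dist h x - 1) (D - 1) (N.ncard - 1)
    ⟨hp1, fun h1 => ((hNm h).1 h1).1 rfl, fun h1 => h1, Set.disjoint_empty N, ?_, ?_, ?_, ?_, ?_,
      ?_, ?_, ?_⟩ ?_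
  · intro x hx
    by_cases h1 : par x = h
    · exact Or.inl h1
    · exact Or.inr (hpar x ((hNm x).1 hx).1 h1)
  · intro x hx
    exact absurd hx (Set.notMem_empty x)
  · intro x hx _ _
    by_cases h1 : par x = h
    · exact Or.inl h1
    · exact Or.inr (hpar x hx h1)
  · intro x hx
    refine ⟨hx, rfl, rfl, ?_⟩
    have h1 := hD x ((hNm x).1 hx).2
    show T.dist h x - 1 ≤ D - 1
    omega
  · intro x _ h1
    exact absurd rfl h1
  · intro x hx _ h1
    have h2 := (hp1 x ((hNm x).1 hx).1).2
    have h3 := (hp1 _ h1).2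
    show T.dist h (par x) - 1 < T.dist h x - 1
    omega
  · intro v hv _
    have h1 : {x | x ∈ N ∧ id x = v} = {v} := by
      ext x
      simp only [id, Set.mem_ofPred_eq, Set.mem_singleton_iff]
      constructor
      · exact fun h2 => h2.2
      · rintro rfl
        exact ⟨hv, rfl⟩
    have h2 : {x | x ∈ N ∧ id x ≠ v} = N \ {v} := by
      ext x
      simp
    have h3 : ∀ p : V → Prop, {x | x ∈ (∅ : Set V) ∧ p x} = ∅ := by
      intro p
      ext x
      simp
    rw [h1, h2, h3, h3, Set.ncard_singleton, Set.ncard_empty, Set.ncard_sdiff_singleton_of_mem hv]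
    omega
  · intro v hv
    obtain ⟨g1, g2⟩ := (hNm v).1 hv
    have h1 : {x | x ∈ N ∧ id x = v ∧ x ≠ v ∧ par x ≠ h} = ∅ := by
      ext x
      simp only [id, Set.mem_ofPred_eq, Set.mem_empty_iff_false, iff_false]
      rintro ⟨_, h2, h3, _⟩
      exact h3 h2
    have h2 : {x | x ∈ (∅ : Set V) ∧ par x = v} = ∅ := by
      ext x
      simp
    have h3 : {x | x ∈ N ∧ id x = x ∧ par x = v} = {x | x ∈ N ∧ par x = v} := by
      ext x
      simp
    rw [h1, h2, h3, Set.ncard_empty]
    have h4 := hfree v (Or.inr hv)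
    have h5 := hdeg v g1 g2
    have h6 : T.neighborSet v = insert (par v) ({x | x ∈ N ∧ par x = v} ∪
        {x | x ≠ h ∧ x ∉ (∅ : Set V) ∧ x ∉ N ∧ par x = v}) := by
      ext y
      rw [SimpleGraph.mem_neighborSet, Set.mem_insert_iff]
      constructor
      · intro h7
        rcases hsymm v y h7 with ⟨h8, _⟩ | ⟨h8, h9⟩
        · exact Or.inl h8.symm
        · right
          by_cases h10 : y ∈ N
          · exact Or.inl ⟨h10, h8⟩
          · exact Or.inr ⟨h9, fun h11 => h11, h10, h8⟩
      · rintro (rfl | ⟨h7, h8⟩ | ⟨h7, _, _, h8⟩)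
        · exact (hp1 v g1).1.symm
        · have h9 := (hp1 y ((hNm y).1 h7).1).1
          rwa [h8] at h9
        · have h9 := (hp1 y h7).1
          rwa [h8] at h9
    have h7 : par v ∉ ({x | x ∈ N ∧ par x = v} ∪
        {x | x ≠ h ∧ x ∉ (∅ : Set V) ∧ x ∉ N ∧ par x = v}) := by
      intro h8
      have h9 : par v ≠ h ∧ par (par v) = v := by
        rcases h8 with ⟨h8, h9⟩ | ⟨h8, _, _, h9⟩
        · exact ⟨((hNm _).1 h8).1, h9⟩
        · exact ⟨h8, h9⟩
      have h10 := (hp1 v g1).2
      have h11 := (hp1 _ h9.1).2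
      rw [h9.2] at h11
      omega
    have h8 : deg T v = {x | x ∈ N ∧ par x = v}.ncard + free h par N ∅ v + 1 := by
      rw [deg, h6, Set.ncard_insert_of_notMem h7 (Set.toFinite _), Set.ncard_union_eq ?_
        (Set.toFinite _) (Set.toFinite _)]
      · rfl
      · rw [Set.disjoint_left]
        rintro x ⟨h9, _⟩ ⟨_, _, h10, _⟩
        exact h10 h9
    omega
  · intro hne
    have hne' : N.Nonempty := by
      rcases hne with h1 | h1
      · exact h1
      · exact absurd h1 Set.not_nonempty_empty
    obtain ⟨v, hv⟩ := hne'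
    obtain ⟨h1, h2, h3⟩ := hk' v hv
    have h4 : {x | x ∈ N ∧ id x ≠ x} = ∅ := by
      ext x
      simp
    have h5 : 1 ≤ N.ncard := (Set.ncard_pos (Set.toFinite _)).2 ⟨v, hv⟩
    rw [h4, Set.ncard_empty]
    refine le_trans ?_ (hh.trans (hfree h (Or.inl rfl)))
    obtain ⟨n, hn⟩ : ∃ n, N.ncard = n + 1 := ⟨N.ncard - 1, by omega⟩
    obtain ⟨E, hE⟩ : ∃ E, D = E + 1 := ⟨D - 1, by omega⟩
    rw [← h1, hn, hE]
    simp only [Nat.add_sub_cancel]
    nlinarith

/-- (1) Let `T` be a finite tree with `k` vertices of degree at least `2`, all within distance `D` of the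
vertex `h`.  If every vertex `v ≠ h` of degree at least `2` is adjacent to at least `(deg v - 1) / 2`
leaves, and `h` is adjacent to at least `16 (D + 1) k` leaves, then `T` is graceful and
`γ(T) = |E(T)|`.

(2) The same holds if there are clusters as in `Served`, and the number of leaves at `h` is at least
`8 (δ + 2) (2 ^ 28 * 10 ^ 9 * a + |N| + |M| + κ + 1) + 2`, where `a` is the number of vertices of `M` and of
vertices of `N` that are no servers. -/
theorem result :
    (∀ (V : Type) [Fintype V] (T : SimpleGraph V), T.IsTree → ∀ (h : V) (k D : ℕ),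
      {x : V | 2 ≤ deg T x}.ncard = k → (∀ x, 2 ≤ deg T x → T.dist h x ≤ D) →
      (∀ v, v ≠ h → 2 ≤ deg T v → deg T v ≤ 2 * leafNbrs T v + 1) →
      16 * (D + 1) * k ≤ leafNbrs T h → Graceful T ∧ gamma T = T.edgeSet.ncard) ∧
    (∀ (V : Type) [Fintype V] (T : SimpleGraph V), T.IsTree → ∀ (h : V) (par : V → V) (N M : Set V)
      (s : V → V) (ρ : V → ℕ) (δ κ : ℕ), Served T h par N M s ρ δ κ →
      8 * (δ + 2) * (2 ^ 28 * 10 ^ 9 * (M.ncard + {x | x ∈ N ∧ s x ≠ x}.ncard) +
        (N.ncard + M.ncard + κ + 1)) + 2 ≤ free h par N M h →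
      Graceful T ∧ gamma T = T.edgeSet.ncard) := by
  constructor
  · intro V _ T hT h k D h1 h2 h3 h4
    have h5 := simple V T hT h k D h1 h2 h3 h4
    exact ⟨h5, gamma_of_graceful hT h5⟩
  · intro V _ T hT h par N M s ρ δ κ h1 h2
    have h3 := general V T hT h par N M s ρ δ κ h1 (fun _ => h2)
    exact ⟨h3, gamma_of_graceful hT h3⟩

end Pool.Agent.Results.MP_128071_co.ServedTrees
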