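import Mathlib
import Pool.Agent.Q119.GT.Main

/-!
# The smallest graceful tree containing a given tree: `γ(T) = |E(T)|` if two adjacent vertices of `T`
have many leaf neighbours, compared with the number of the vertices which are not leaves

Let `T` be a finite tree with `k` vertices which are not leaves, and let `h`, `g` be adjacent vertices
of `T`, none of them a leaf.  If `h` has at least `2 ^ 30 * 10 ^ 9 * k` leaf neighbours and `g` has at
least `2 (k - 2)` leaf neighbours, then `T` is graceful, so `T` itself is the smallest graceful tree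
containing `T`.  There is no condition on the shape of `T` and on the numbers of leaves at the other
vertices; these numbers may be arbitrarily large or zero.
-/

set_option autoImplicit false

namespace Pool.Agent.Results.MP_128071_co.TwoAdjacentHubs

/-- A graph with `m` edges is graceful if there is an injective map `f` of the vertices to
`{0, 1, …, m}` such that the edge labels `|f u - f v|` are exactly `1, …, m`. -/
def Graceful {V : Type} (T : SimpleGraph V) : Prop :=
  ∃ f : V → ℕ, Function.Injective f ∧ (∀ v, f v ≤ T.edgeSet.ncard) ∧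
    {d : ℕ | ∃ u v : V, T.Adj u v ∧ d = Int.natAbs ((f u : ℤ) - (f v : ℤ))} =
      Set.Icc 1 T.edgeSet.ncard

/-- The numbers of edges of the finite graceful trees which have a subgraph isomorphic to `T`. -/
def gracefulSizes {V : Type} (T : SimpleGraph V) : Set ℕ :=
  {k | ∃ (W : Type) (_ : Fintype W) (T' : SimpleGraph W),
    T'.IsTree ∧ Graceful T' ∧ T.IsContained T' ∧ T'.edgeSet.ncard = k}

/-- `γ(T)`: the least number of edges of a graceful tree which has a subgraph isomorphic to `T`. -/
noncomputable def gamma {V : Type} (T : SimpleGraph V) : ℕ := sInf (gracefulSizes T)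

/-- The number of neighbours of a vertex. -/
noncomputable def deg {V : Type} (T : SimpleGraph V) (x : V) : ℕ := (T.neighborSet x).ncard

/-- The number of the leaves (vertices with exactly one neighbour) adjacent to a vertex. -/
noncomputable def leafNbrs {V : Type} (T : SimpleGraph V) (w : V) : ℕ :=
  {x : V | T.Adj w x ∧ deg T x = 1}.ncard

theorem le_of_mem {V : Type} {T : SimpleGraph V} {k : ℕ}
    (hk : k ∈ gracefulSizes T) : T.edgeSet.ncard ≤ k := by
  classical
  obtain ⟨W, _, T', _, _, ⟨φ⟩, rfl⟩ := hk
  have hinj : Function.Injective φ := φ.injective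
  have h1 : Sym2.map φ '' T.edgeSet ⊆ T'.edgeSet := by
    rintro _ ⟨e, he, rfl⟩
    induction e using Sym2.ind with
    | _ x y =>
      rw [Sym2.map_mk, SimpleGraph.mem_edgeSet]
      exact φ.toHom.map_adj ((SimpleGraph.mem_edgeSet T).1 he)
  calc T.edgeSet.ncard = (Sym2.map φ '' T.edgeSet).ncard :=
        (Set.ncard_image_of_injective _ (Sym2.map.injective hinj)).symm
    _ ≤ T'.edgeSet.ncard := Set.ncard_le_ncard h1 (Set.toFinite _)

/-- a graceful tree is the smallest graceful tree containing itself -/
theorem gamma_of_graceful {V : Type} [Fintype V] {T : SimpleGraph V} (hT : T.IsTree)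
    (hg : Graceful T) : gamma T = T.edgeSet.ncard := by
  have hm : T.edgeSet.ncard ∈ gracefulSizes T :=
    ⟨V, inferInstance, T, hT, hg, SimpleGraph.IsContained.refl T, rfl⟩
  exact le_antisymm (Nat.sInf_le hm) (le_of_mem (Nat.sInf_mem ⟨_, hm⟩))

/-- Let `T` be a finite tree, `k` the number of its vertices with at least two neighbours, and `h`, `g`
two adjacent vertices such that `g` has at least two neighbours.  If `h` is adjacent to at least
`2 ^ 30 * 10 ^ 9 * k` leaves and `g` to at least `2 (k - 2)` leaves, then `T` is graceful and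
`γ(T) = |E(T)|`. -/
theorem result (V : Type) [Fintype V] (T : SimpleGraph V) (hT : T.IsTree) (k : ℕ)
    (hk : {x : V | 2 ≤ deg T x}.ncard = k) (h g : V) (hhg : T.Adj h g) (hg2 : 2 ≤ deg T g)
    (hg : 2 * (k - 2) ≤ leafNbrs T g) (hh : 2 ^ 30 * 10 ^ 9 * k ≤ leafNbrs T h) :
    Graceful T ∧ gamma T = T.edgeSet.ncard := by
  have h1 : Graceful T := Pool.Agent.Q119.GT.twoHubs V T hT h g hhg k hk hg2 hg hh
  exact ⟨h1, gamma_of_graceful hT h1⟩

end Pool.Agent.Results.MP_128071_co.TwoAdjacentHubs
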